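import Mathlib

/-!
Derivations of the field of complex numbers with prescribed values on an algebraically
independent family.
-/

set_option autoImplicit false

namespace Pool.Agent.KGen

open scoped TensorProduct
open scoped IntermediateField.algebraAdjoinAdjoin

/-- The extension of `∂/∂(v b)` from `ℚ[v]` to `ℂ`, for a transcendence basis `v`. -/
theorem exists_derivation_basis {ι : Type} (v : ι → ℂ) (hv : IsTranscendenceBasis ℚ v) (b : ι) :
    ∃ D : Derivation ℚ ℂ ℂ, D (v b) = 1 ∧ ∀ c, c ≠ b → D (v c) = 0 := by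
  classical
  let eq0 : MvPolynomial ι ℚ ≃ₐ[ℚ] Algebra.adjoin ℚ (Set.range v) := hv.1.aevalEquiv
  have heq0 : ∀ p, ((eq0 p : Algebra.adjoin ℚ (Set.range v)) : ℂ) = MvPolynomial.aeval v p :=
    fun p => hv.1.algebraMap_aevalEquiv p
  have heq1 : ∀ p : Algebra.adjoin ℚ (Set.range v),
      MvPolynomial.aeval v (eq0.symm p) = (p : ℂ) := by
    intro p
    rw [← heq0, AlgEquiv.apply_symm_apply]
  let D0 : Derivation ℚ (Algebra.adjoin ℚ (Set.range v)) ℂ := Derivation.mk'
    ((MvPolynomial.aeval v).toLinearMap ∘ₗ (MvPolynomial.pderiv b).toLinearMap ∘ₗ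
      eq0.symm.toLinearMap) (by
        intro p q
        change MvPolynomial.aeval v (MvPolynomial.pderiv b (eq0.symm (p * q)))
          = p • MvPolynomial.aeval v (MvPolynomial.pderiv b (eq0.symm q))
            + q • MvPolynomial.aeval v (MvPolynomial.pderiv b (eq0.symm p))
        rw [map_mul, Derivation.leibniz, map_add, smul_eq_mul, smul_eq_mul, map_mul, map_mul,
          heq1, heq1]
        rfl)
  have hD0 : ∀ c, D0 (eq0 (MvPolynomial.X c)) = if c = b then 1 else 0 := by
    intro c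
    change MvPolynomial.aeval v (MvPolynomial.pderiv b (eq0.symm (eq0 (MvPolynomial.X c)))) = _
    rw [AlgEquiv.symm_apply_apply, MvPolynomial.pderiv_X]
    by_cases h : c = b
    · subst h; simp
    · simp [h]
  have h1 : Algebra.FormallyEtale (Algebra.adjoin ℚ (Set.range v))
      (IntermediateField.adjoin ℚ (Set.range v)) :=
    Algebra.FormallyEtale.of_isLocalization (Rₘ := IntermediateField.adjoin ℚ (Set.range v))
      (nonZeroDivisors (Algebra.adjoin ℚ (Set.range v)))
  have h3 : Algebra.IsAlgebraic (IntermediateField.adjoin ℚ (Set.range v)) ℂ :=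
    hv.isAlgebraic_field
  have h2 : Algebra.FormallyEtale (IntermediateField.adjoin ℚ (Set.range v)) ℂ :=
    Algebra.FormallyEtale.of_isSeparable _ ℂ
  have h4 : Algebra.FormallyEtale (Algebra.adjoin ℚ (Set.range v)) ℂ :=
    Algebra.FormallyEtale.comp _ (IntermediateField.adjoin ℚ (Set.range v)) ℂ
  let e := KaehlerDifferential.tensorKaehlerEquivOfFormallyEtale ℚ
    (Algebra.adjoin ℚ (Set.range v)) ℂ
  let L : (ℂ ⊗[Algebra.adjoin ℚ (Set.range v)] Ω[Algebra.adjoin ℚ (Set.range v)⁄ℚ]) →ₗ[ℂ] ℂ :=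
    LinearMap.liftBaseChange ℂ D0.liftKaehlerDifferential
  let D : Derivation ℚ ℂ ℂ := (L ∘ₗ e.symm.toLinearMap).compDer (KaehlerDifferential.D ℚ ℂ)
  have hD : ∀ s : Algebra.adjoin ℚ (Set.range v), D (algebraMap _ ℂ s) = D0 s := by
    intro s
    change L (e.symm (KaehlerDifferential.D ℚ ℂ (algebraMap _ ℂ s))) = D0 s
    rw [KaehlerDifferential.tensorKaehlerEquivOfFormallyEtale_symm_D_algebraMap]
    simp [L]
  have hX : ∀ c, algebraMap (Algebra.adjoin ℚ (Set.range v)) ℂ (eq0 (MvPolynomial.X c)) = v c := by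
    intro c
    change ((eq0 (MvPolynomial.X c) : Algebra.adjoin ℚ (Set.range v)) : ℂ) = v c
    rw [heq0, MvPolynomial.aeval_X]
  refine ⟨D, ?_, ?_⟩
  · rw [← hX b, hD, hD0]; simp
  · intro c hc
    rw [← hX c, hD, hD0]; simp [hc]

/-- A countable family of complex numbers with the dual derivations. -/
theorem exists_family (κ : Type) [Countable κ] :
    ∃ g : κ → ℂ, ∀ i, ∃ D : Derivation ℚ ℂ ℂ, D (g i) = 1 ∧ ∀ j, j ≠ i → D (g j) = 0 := by
  obtain ⟨s, hs⟩ := exists_isTranscendenceBasis ℚ ℂ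
  have hcard : Cardinal.mk ℂ = Cardinal.mk s := by
    have := IsAlgClosed.cardinal_eq_cardinal_transcendence_basis_of_aleph0_lt _ hs (by simp) (by
      rw [Cardinal.mk_complex]
      exact Cardinal.aleph0_lt_continuum)
    simpa using this
  have hinf : Infinite s := by
    rw [Cardinal.infinite_iff, ← hcard, Cardinal.mk_complex]
    exact Cardinal.aleph0_le_continuum
  obtain ⟨f⟩ : Nonempty (κ ↪ ℕ) := nonempty_embedding_nat κ
  obtain ⟨h⟩ : Nonempty (ℕ ↪ s) := ⟨Infinite.natEmbedding s⟩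
  refine ⟨fun i => (h (f i) : ℂ), fun i => ?_⟩
  obtain ⟨D, hD1, hD2⟩ := exists_derivation_basis (fun x : s => (x : ℂ)) hs (h (f i))
  refine ⟨D, hD1, fun j hj => hD2 _ fun hh => hj (f.injective (h.injective hh))⟩

end Pool.Agent.KGen
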