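import Pool.Agent.KGen.Der

/-!
Exponentials of power series without constant term, and coefficientwise derivations.
-/

set_option autoImplicit false

namespace Pool.Agent.KGen

open PowerSeries Finset

/-- The coefficientwise extension of a derivation of `ℂ` to power series. -/
noncomputable def Dt (D : Derivation ℚ ℂ ℂ) : Derivation ℚ ℂ⟦X⟧ ℂ⟦X⟧ :=
  Derivation.mk'
    { toFun := fun f => PowerSeries.mk fun r => D (coeff r f)
      map_add' := fun a b => by ext r; simp
      map_smul' := fun q a => by ext r; simp }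
    (fun a b => by
      ext r
      simp only [LinearMap.coe_mk, AddHom.coe_mk, coeff_mk, smul_eq_mul, map_add, coeff_mul,
        map_sum, Derivation.leibniz]
      rw [Finset.sum_add_distrib]
      congr 1
      rw [← Finset.Nat.sum_antidiagonal_swap]
      rfl)

theorem coeff_Dt (D : Derivation ℚ ℂ ℂ) (f : ℂ⟦X⟧) (r : ℕ) :
    coeff r (Dt D f) = D (coeff r f) := by
  change coeff r (PowerSeries.mk fun r => D (coeff r f)) = _
  rw [coeff_mk]

theorem Dt_C (D : Derivation ℚ ℂ ℂ) (c : ℂ) : Dt D (C c) = C (D c) := by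
  ext r
  rw [coeff_Dt, coeff_C, coeff_C]
  split_ifs <;> simp

/-- The truncated exponential. -/
noncomputable def S {A : Type*} [CommRing A] [Algebra ℚ A] (R : ℕ) (u : A) : A :=
  ∑ d ∈ range (R + 1), ((d.factorial : ℚ)⁻¹) • u ^ d

/-- The exponential of a power series without constant term. -/
noncomputable def ex (u : ℂ⟦X⟧) : ℂ⟦X⟧ := PowerSeries.mk fun r => coeff r (S r u)

theorem coeff_S_eq {u : ℂ⟦X⟧} (hu : X ∣ u) {r R : ℕ} (h : r ≤ R) :
    coeff r (S R u) = coeff r (S r u) := by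
  unfold S
  rw [map_sum, map_sum]
  symm
  apply Finset.sum_subset
  · intro d hd
    simp only [Finset.mem_range] at hd ⊢
    omega
  · intro d _ hd
    simp only [Finset.mem_range] at hd
    have h1 : (X : ℂ⟦X⟧) ^ d ∣ u ^ d := pow_dvd_pow_of_dvd hu d
    have h2 := (X_pow_dvd_iff.mp h1) r (by omega)
    rw [(coeff r).map_smul_of_tower, h2, smul_zero]

theorem coeff_ex {u : ℂ⟦X⟧} (hu : X ∣ u) {r R : ℕ} (h : r ≤ R) :
    coeff r (ex u) = coeff r (S R u) := by
  rw [coeff_S_eq hu h]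
  unfold ex
  rw [coeff_mk]

theorem Dt_S (D : Derivation ℚ ℂ ℂ) (u : ℂ⟦X⟧) (R : ℕ) :
    Dt D (S (R + 1) u) = Dt D u * S R u := by
  unfold S
  rw [Finset.sum_range_succ', map_add, map_sum, Finset.mul_sum]
  simp only [pow_zero, Nat.factorial_zero]
  rw [(Dt D).map_smul, (Dt D).map_one_eq_zero, smul_zero, add_zero]
  apply Finset.sum_congr rfl
  intro d _
  rw [(Dt D).map_smul, (Dt D).leibniz_pow, Nat.add_sub_cancel, Nat.factorial_succ]
  rw [← Nat.cast_smul_eq_nsmul ℚ (d + 1), smul_smul, smul_eq_mul, mul_smul_comm,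
    mul_comm (Dt D u)]
  congr 1
  push_cast
  have h1 : ((d : ℚ) + 1) ≠ 0 := by positivity
  have h2 : ((d.factorial : ℚ)) ≠ 0 := by positivity
  field_simp

theorem Dt_ex (D : Derivation ℚ ℂ ℂ) {u : ℂ⟦X⟧} (hu : X ∣ u) :
    Dt D (ex u) = Dt D u * ex u := by
  ext r
  rw [coeff_Dt, coeff_ex hu (Nat.le_succ r), ← coeff_Dt, Dt_S, coeff_mul, coeff_mul]
  apply Finset.sum_congr rfl
  intro ij hij
  have hij := Finset.HasAntidiagonal.mem_antidiagonal.mp hij
  rw [coeff_ex hu (show ij.2 ≤ r by omega)]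

theorem constantCoeff_ex (u : ℂ⟦X⟧) : coeff 0 (ex u) = 1 := by
  unfold ex S
  simp

end Pool.Agent.KGen
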