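import Pool.Agent.KGen.Exp
import Pool.Agent.KReg.Final

/-!
Polynomial `k`-regular maps `ℂ^n → ℂ^N` for all `k`, `n` and `N ≥ (n + 1) (k - 1) + 1`.
-/

set_option autoImplicit false

namespace Pool.Agent.KGen

open PowerSeries Finset

variable {n : ℕ}

/-- The `l`-th coordinate of the arc. -/
noncomputable def gam (g : ℕ × Fin n → ℂ) (l : Fin n) : ℂ⟦X⟧ :=
  X * PowerSeries.mk fun j => g (j, l)

/-- The pairing of the arc with the point `x`. -/
noncomputable def lin (g : ℕ × Fin n → ℂ) (x : Fin n → ℂ) : ℂ⟦X⟧ := ∑ l, C (x l) * gam g l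

/-- The exponential `exp ⟨γ(s), x⟩`. -/
noncomputable def e (g : ℕ × Fin n → ℂ) (x : Fin n → ℂ) : ℂ⟦X⟧ := ex (lin g x)

theorem X_dvd_lin (g : ℕ × Fin n → ℂ) (x : Fin n → ℂ) : (X : ℂ⟦X⟧) ∣ lin g x :=
  Finset.dvd_sum fun l _ => ((Dvd.intro _ rfl : (X : ℂ⟦X⟧) ∣ gam g l)).mul_left _

theorem Dt_lin (D : Derivation ℚ ℂ ℂ) (g : ℕ × Fin n → ℂ) (x : Fin n → ℂ) :
    Dt D (lin g x) = ∑ l, C (D (x l)) * gam g l + ∑ l, C (x l) * Dt D (gam g l) := by
  unfold lin
  rw [map_sum, ← Finset.sum_add_distrib]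
  apply Finset.sum_congr rfl
  intro l _
  rw [Derivation.leibniz, Dt_C, smul_eq_mul, smul_eq_mul]
  ring

theorem Dt_gam (D : Derivation ℚ ℂ ℂ) (g : ℕ × Fin n → ℂ) (j : ℕ) (l0 : Fin n)
    (h1 : D (g (j, l0)) = 1) (h2 : ∀ i, i ≠ (j, l0) → D (g i) = 0) (l : Fin n) :
    Dt D (gam g l) = if l = l0 then X ^ (j + 1) else 0 := by
  ext r
  rw [coeff_Dt]
  unfold gam
  rcases r with _ | r
  · rw [coeff_zero_X_mul, map_zero]
    split_ifs
    · rw [coeff_X_pow, if_neg (by omega)]
    · simp
  · rw [coeff_succ_X_mul, coeff_mk]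
    by_cases hl : l = l0
    · subst hl
      rw [if_pos rfl, coeff_X_pow]
      by_cases hr : r = j
      · subst hr
        rw [h1, if_pos rfl]
      · rw [h2 _ (by simpa using hr), if_neg (by omega)]
    · rw [if_neg hl, h2 _ (by simp [hl])]
      simp

variable {ι : Type} [Fintype ι]

/-- The combination `∑ a_i exp ⟨γ(s), x_i⟩`. -/
noncomputable def E (g : ℕ × Fin n → ℂ) (x : ι → Fin n → ℂ) (a : ι → ℂ) : ℂ⟦X⟧ :=
  ∑ i, C (a i) * e g (x i)

/-- The map `(b, d) ↦ ∑ (b_i + ⟨γ, d_i⟩) exp ⟨γ(s), x_i⟩`. -/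
noncomputable def Th (g : ℕ × Fin n → ℂ) (x : ι → Fin n → ℂ) :
    ((ι → ℂ) × (ι → Fin n → ℂ)) →ₗ[ℂ] ℂ⟦X⟧ where
  toFun z := ∑ i, (C (z.1 i) + ∑ l, C (z.2 i l) * gam g l) * e g (x i)
  map_add' z z' := by
    rw [← Finset.sum_add_distrib]
    apply Finset.sum_congr rfl
    intro i _
    simp only [Prod.fst_add, Prod.snd_add, Pi.add_apply, map_add, add_mul,
      Finset.sum_add_distrib]
    ring
  map_smul' c z := by
    rw [Finset.smul_sum]
    apply Finset.sum_congr rfl
    intro i _
    simp only [Prod.smul_fst, Prod.smul_snd, Pi.smul_apply, smul_eq_mul, map_mul, RingHom.id_apply,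
      PowerSeries.smul_eq_C_mul, mul_assoc, ← Finset.mul_sum]
    ring

theorem Th_apply (g : ℕ × Fin n → ℂ) (x : ι → Fin n → ℂ) (z : (ι → ℂ) × (ι → Fin n → ℂ)) :
    Th g x z = ∑ i, (C (z.1 i) + ∑ l, C (z.2 i l) * gam g l) * e g (x i) := rfl

theorem e_mem (g : ℕ × Fin n → ℂ) (x : ι → Fin n → ℂ) (i : ι) :
    e g (x i) ∈ LinearMap.range (Th g x) := by
  classical
  refine ⟨(Pi.single i 1, 0), ?_⟩
  rw [Th_apply, Finset.sum_eq_single i]
  · simp
  · intro j _ hj
    simp [hj]
  · simp

theorem gam_e_mem (g : ℕ × Fin n → ℂ) (x : ι → Fin n → ℂ) (i : ι) (l : Fin n) :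
    gam g l * e g (x i) ∈ LinearMap.range (Th g x) := by
  classical
  refine ⟨(0, Pi.single i (Pi.single l 1)), ?_⟩
  rw [Th_apply, Finset.sum_eq_single i]
  · rw [Finset.sum_eq_single l]
    · simp
    · intro j _ hj
      simp [hj]
    · simp
  · intro j _ hj
    simp [hj]
  · simp

theorem range_Th_le (g : ℕ × Fin n → ℂ) (x : ι → Fin n → ℂ) (p : ι → Prop) [DecidablePred p] :
    LinearMap.range (Th g fun i : {i // p i} => x i.1) ≤ LinearMap.range (Th g x) := by
  rintro _ ⟨z, rfl⟩
  rw [Th_apply]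
  apply Submodule.sum_mem
  intro i _
  rw [add_mul, Finset.sum_mul]
  apply Submodule.add_mem
  · rw [← PowerSeries.smul_eq_C_mul]
    exact Submodule.smul_mem _ _ (e_mem g x i.1)
  · apply Submodule.sum_mem
    intro l _
    rw [mul_assoc, ← PowerSeries.smul_eq_C_mul]
    exact Submodule.smul_mem _ _ (gam_e_mem g x i.1 l)

theorem E_mem (g : ℕ × Fin n → ℂ) (x : ι → Fin n → ℂ) (a : ι → ℂ) :
    E g x a ∈ LinearMap.range (Th g x) := by
  unfold E
  apply Submodule.sum_mem
  intro i _
  rw [← PowerSeries.smul_eq_C_mul]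
  exact Submodule.smul_mem _ _ (e_mem g x i)

/-- `f` has order exactly `r`. -/
def HasOrd (f : ℂ⟦X⟧) (r : ℕ) : Prop := (∀ r' < r, coeff r' f = 0) ∧ coeff r f ≠ 0

theorem triangular {m : ℕ} (V : Submodule ℂ (Fin m → ℂ))
    (h : ∀ r : Fin m, ∃ v ∈ V, (∀ r' < r, v r' = 0) ∧ v r ≠ 0) : V = ⊤ := by
  have key : ∀ (d : ℕ), ∀ v : Fin m → ℂ, (∀ i : Fin m, (i : ℕ) + d < m → v i = 0) → v ∈ V := by
    intro d
    induction d with
    | zero =>
      intro v hv
      have : v = 0 := by
        ext i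
        exact hv i (by simp)
      rw [this]
      exact V.zero_mem
    | succ d ih =>
      intro v hv
      by_cases hd : d < m
      · obtain ⟨r0, hr0⟩ : ∃ r0 : Fin m, (r0 : ℕ) = m - 1 - d := ⟨⟨m - 1 - d, by omega⟩, rfl⟩
        obtain ⟨t, htV, ht0, ht1⟩ := h r0
        have h1 : v - (v r0 / t r0) • t ∈ V := by
          apply ih
          intro i hi
          rcases lt_or_eq_of_le (show (i : ℕ) ≤ r0 by omega) with h2 | h2
          · simp [hv i (by omega), ht0 i (Fin.lt_def.mpr h2)]
          · have h3 : i = r0 := Fin.ext h2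
            subst h3
            simp only [Pi.sub_apply, Pi.smul_apply, smul_eq_mul]
            rw [div_mul_cancel₀ _ ht1, sub_self]
        have h2 := V.add_mem h1 (V.smul_mem (v r0 / t r0) htV)
        simpa using h2
      · exact ih v fun i hi => by omega
  rw [Submodule.eq_top_iff']
  intro v
  exact key m v fun i hi => by omega

theorem coeff_mul_zero {f h : ℂ⟦X⟧} {m : ℕ} (hf : ∀ r < m, coeff r f = 0) :
    ∀ r < m, coeff r (h * f) = 0 :=
  X_pow_dvd_iff.mp ((X_pow_dvd_iff.mpr hf).mul_left h)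

theorem bound (g : ℕ × Fin n → ℂ) [Nonempty ι] (x : ι → Fin n → ℂ) (a : ι → ℂ)
    (ha : ∀ i, a i ≠ 0) (m : ℕ) (hE : ∀ r < m, coeff r (E g x a) = 0)
    (hA : ∀ r < m, ∃ f ∈ LinearMap.range (Th g x), HasOrd f r) :
    m + (n + 1) ≤ (n + 1) * Fintype.card ι := by
  classical
  let cf : ℂ⟦X⟧ →ₗ[ℂ] (Fin m → ℂ) := LinearMap.pi fun r => coeff (r : ℕ)
  have hcf : ∀ f r, cf f r = coeff (r : ℕ) f := fun f r => rfl
  have hrange : LinearMap.range (cf ∘ₗ Th g x) = ⊤ := by
    apply triangular
    intro r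
    obtain ⟨f, ⟨z, hz⟩, hf0, hf1⟩ := hA r r.2
    refine ⟨cf f, ⟨z, by rw [LinearMap.comp_apply, hz]⟩, ?_, ?_⟩
    · intro r' hr'
      exact hf0 r' hr'
    · exact hf1
  let Ph : (ℂ × (Fin n → ℂ)) →ₗ[ℂ] ((ι → ℂ) × (ι → Fin n → ℂ)) :=
    { toFun := fun z => (fun i => z.1 * a i, fun i l => a i * z.2 l)
      map_add' := fun z z' => by
        ext i
        · simp [add_mul]
        · simp [mul_add]
      map_smul' := fun c z => by
        ext i
        · simp [mul_assoc]
        · simp; ring }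
  have hPh : ∀ z, Ph z ∈ LinearMap.ker (cf ∘ₗ Th g x) := by
    intro z
    rw [LinearMap.mem_ker]
    ext r
    rw [LinearMap.comp_apply, hcf]
    have h1 : Th g x (Ph z) = (C z.1 + ∑ l, C (z.2 l) * gam g l) * E g x a := by
      rw [Th_apply]
      unfold E
      rw [Finset.mul_sum]
      apply Finset.sum_congr rfl
      intro i _
      change (C (z.1 * a i) + ∑ l, C (a i * z.2 l) * gam g l) * e g (x i) = _
      have h2 : ∑ l, C (a i * z.2 l) * gam g l = C (a i) * ∑ l, C (z.2 l) * gam g l := by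
        rw [Finset.mul_sum]
        apply Finset.sum_congr rfl
        intro l _
        rw [map_mul, mul_assoc]
      rw [h2, map_mul]
      ring
    rw [h1]
    exact coeff_mul_zero hE r r.2
  let Ph' : (ℂ × (Fin n → ℂ)) →ₗ[ℂ] LinearMap.ker (cf ∘ₗ Th g x) := LinearMap.codRestrict _ Ph hPh
  have hinj : Function.Injective Ph' := by
    rw [injective_iff_map_eq_zero]
    intro z hz
    have h1 : Ph z = 0 := congrArg Subtype.val hz
    obtain ⟨i0⟩ := ‹Nonempty ι›
    have h2 : z.1 * a i0 = 0 := congrFun (congrArg Prod.fst h1) i0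
    have h3 : ∀ l, a i0 * z.2 l = 0 := fun l => congrFun (congrFun (congrArg Prod.snd h1) i0) l
    ext l
    · exact (mul_eq_zero.mp h2).resolve_right (ha i0)
    · exact (mul_eq_zero.mp (h3 l)).resolve_left (ha i0)
  have h1 := LinearMap.finrank_range_add_finrank_ker (cf ∘ₗ Th g x)
  have h2 := LinearMap.finrank_le_finrank_of_injective hinj
  rw [hrange, finrank_top] at h1
  simp only [Module.finrank_prod, Module.finrank_pi, Module.finrank_self, Fintype.card_fin,
    Module.finrank_pi_fintype, Finset.sum_const, Finset.card_univ, smul_eq_mul] at h1 h2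
  nlinarith

theorem claimA (g : ℕ × Fin n → ℂ)
    (hg : ∀ i, ∃ D : Derivation ℚ ℂ ℂ, D (g i) = 1 ∧ ∀ j, j ≠ i → D (g j) = 0) :
    ∀ (κ : ℕ) (ι : Type) [Fintype ι] [Nonempty ι] (x : ι → Fin n → ℂ) (a : ι → ℂ),
      Function.Injective x → (∀ i, a i ≠ 0) → Fintype.card ι ≤ κ →
      ∀ m, (∀ r < m, coeff r (E g x a) = 0) →
      ∀ r < m, ∃ f ∈ LinearMap.range (Th g x), HasOrd f r := by
  classical
  intro κ
  induction κ with
  | zero =>
    intro ι _ _ x a _ _ hc
    exact absurd hc (by have := Fintype.card_pos (α := ι); omega)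
  | succ κ ih =>
    intro ι _ _ x a hx ha hc m hE r hr
    rcases subsingleton_or_nontrivial ι with hs | hs
    · exfalso
      obtain ⟨i0⟩ := ‹Nonempty ι›
      have h1 := hE 0 (by omega)
      unfold E at h1
      rw [Fintype.sum_eq_single i0 (fun j hj => absurd (Subsingleton.elim j i0) hj)] at h1
      rw [coeff_C_mul] at h1
      unfold e at h1
      rw [constantCoeff_ex, mul_one] at h1
      exact ha i0 h1
    · obtain ⟨c, p', hcp⟩ := exists_pair_ne ι
      obtain ⟨l, hl⟩ := Function.ne_iff.mp (hx.ne hcp.symm)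
      let x' : {i // x i l ≠ x c l} → Fin n → ℂ := fun i => x i.1
      let a' : {i // x i l ≠ x c l} → ℂ := fun i => a i.1 * (x i.1 l - x c l)
      have hne : Nonempty {i // x i l ≠ x c l} := ⟨⟨p', hl⟩⟩
      have hcard : Fintype.card {i // x i l ≠ x c l} < Fintype.card ι :=
        Fintype.card_subtype_lt (x := c) (by simp)
      have hx' : Function.Injective x' := fun i j h => Subtype.ext (hx h)
      have ha' : ∀ i, a' i ≠ 0 := fun i => mul_ne_zero (ha i.1) (sub_ne_zero.mpr i.2)
      have IH := ih {i // x i l ≠ x c l} x' a' hx' ha' (by omega)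
      have hT : LinearMap.range (Th g x') ≤ LinearMap.range (Th g x) := range_Th_le g x _
      have hGex : ∃ r0, coeff r0 (E g x' a') ≠ 0 := by
        by_contra hcon
        push Not at hcon
        have h1 := bound g x' a' ha' ((n + 1) * Fintype.card {i // x i l ≠ x c l})
          (fun r _ => hcon r) (IH _ fun r _ => hcon r)
        omega
      obtain ⟨g0, hg0, hg1⟩ : ∃ g0, coeff g0 (E g x' a') ≠ 0 ∧
          ∀ s < g0, coeff s (E g x' a') = 0 := by
        refine ⟨Nat.find hGex, Nat.find_spec hGex, fun s hs => ?_⟩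
        by_contra h
        exact Nat.find_min hGex hs h
      rcases lt_trichotomy r g0 with h | h | h
      · obtain ⟨f, hf, hf'⟩ := IH g0 hg1 r h
        exact ⟨f, hT hf, hf'⟩
      · subst h
        exact ⟨E g x' a', hT (E_mem g x' a'), hg1, hg0⟩
      · obtain ⟨j, rfl⟩ : ∃ j, r = g0 + (j + 1) := ⟨r - g0 - 1, by omega⟩
        obtain ⟨D, hD1, hD2⟩ := hg (j, l)
        let F : ℂ⟦X⟧ := Th g x (fun i => D (a i), fun i l' => a i * D (x i l'))
        have hsum : ∑ i, C (a i * x i l) * e g (x i) = E g x' a' + C (x c l) * E g x a := by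
          have h1 : E g x' a' = ∑ i, C (a i * (x i l - x c l)) * e g (x i) := by
            rw [← Fintype.sum_subtype_add_sum_subtype (fun i => x i l ≠ x c l)
              (fun i => C (a i * (x i l - x c l)) * e g (x i))]
            have h2 : ∑ i : {i // ¬ (x i l ≠ x c l)},
                C (a i.1 * (x i.1 l - x c l)) * e g (x i.1) = 0 := by
              apply Finset.sum_eq_zero
              rintro ⟨i, hi⟩ _
              push Not at hi
              simp [hi]
            rw [h2, add_zero]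
            rfl
          rw [h1]
          unfold E
          rw [Finset.mul_sum, ← Finset.sum_add_distrib]
          apply Finset.sum_congr rfl
          intro i _
          rw [map_mul, map_mul, map_sub]
          ring
        have hkey : Dt D (E g x a) =
            F + X ^ (j + 1) * (E g x' a' + C (x c l) * E g x a) := by
          rw [← hsum, Finset.mul_sum]
          change _ = Th g x (fun i => D (a i), fun i l' => a i * D (x i l')) + _
          rw [Th_apply, ← Finset.sum_add_distrib]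
          unfold E
          rw [map_sum]
          apply Finset.sum_congr rfl
          intro i _
          rw [Derivation.leibniz, Dt_C]
          unfold e
          rw [Dt_ex D (X_dvd_lin g (x i)), Dt_lin]
          simp only [Dt_gam D g j l hD1 hD2, mul_ite, mul_zero, Finset.sum_ite_eq',
            Finset.mem_univ, if_true, smul_eq_mul, map_mul, mul_assoc, ← Finset.mul_sum]
          ring
        have hco : ∀ s < m, coeff s (-F) = coeff s (X ^ (j + 1) * E g x' a') := by
          intro s hs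
          have h1 : coeff s (Dt D (E g x a)) = 0 := by
            rw [coeff_Dt, hE s hs, map_zero]
          rw [hkey, mul_add, map_add, map_add, ← mul_assoc,
            coeff_mul_zero (h := X ^ (j + 1) * C (x c l)) hE s hs, add_zero] at h1
          rw [map_neg]
          linear_combination -h1
        refine ⟨-F, Submodule.neg_mem _ ⟨_, rfl⟩, ?_, ?_⟩
        · intro s hs
          rw [hco s (by omega), coeff_X_pow_mul']
          split_ifs with h2
          · exact hg1 _ (by omega)
          · rfl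
        · rw [hco _ hr, coeff_X_pow_mul', if_pos (by omega)]
          rw [show g0 + (j + 1) - (j + 1) = g0 by omega]
          exact hg0

/-- The generic power series with coefficients in the polynomial ring. -/
noncomputable def U (g : ℕ × Fin n → ℂ) : (MvPolynomial (Fin n) ℂ)⟦X⟧ :=
  ∑ l, C (MvPolynomial.X l) * PowerSeries.map MvPolynomial.C (gam g l)

theorem map_U (g : ℕ × Fin n → ℂ) (x : Fin n → ℂ) :
    PowerSeries.map (MvPolynomial.eval x) (U g) = lin g x := by
  unfold U lin
  rw [map_sum]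
  apply Finset.sum_congr rfl
  intro l _
  rw [map_mul, PowerSeries.map_C, MvPolynomial.eval_X]
  congr 1
  ext r
  simp

theorem map_S {A B : Type} [CommRing A] [CommRing B] [Algebra ℚ A] [Algebra ℚ B]
    (f : A →+* B) (R : ℕ) (u : A) : f (S R u) = S R (f u) := by
  unfold S
  rw [map_sum]
  apply Finset.sum_congr rfl
  intro d _
  rw [map_rat_smul, map_pow]

/-- Polynomial `k`-regular maps `ℂ^n → ℂ^N` exist for all `N ≥ (n + 1) (k - 1) + 1`. -/
theorem exists_general (k n N : ℕ) (hN : (n + 1) * (k - 1) + 1 ≤ N) :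
    ∃ f : (Fin n → ℂ) → (Fin N → ℂ), KReg.IsPolynomialMap n N f ∧ KReg.IsKRegular k n N f := by
  obtain ⟨g, hg⟩ := exists_family (ℕ × Fin n)
  let P : Fin ((n + 1) * (k - 1) + 1) → MvPolynomial (Fin n) ℂ := fun r => coeff (r : ℕ) (S r (U g))
  have hP : ∀ (y : Fin n → ℂ) r, MvPolynomial.eval y (P r) = coeff (r : ℕ) (e g y) := by
    intro y r
    unfold e
    rw [coeff_ex (X_dvd_lin g y) le_rfl, ← map_U, ← map_S, coeff_map]
  apply KReg.exists_of_key k n N P (by simpa using hN)
  intro ι _ _ x a hx hk ha hsum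
  have hE : ∀ r < (n + 1) * (k - 1) + 1, coeff r (E g x a) = 0 := by
    intro r hr
    have := hsum ⟨r, hr⟩
    simp only [hP] at this
    unfold E
    rw [map_sum]
    simpa using this
  have h1 := bound g x a ha _ hE (claimA g hg (Fintype.card ι) ι x a hx ha le_rfl _ hE)
  have h2 : 1 ≤ Fintype.card ι := Fintype.card_pos
  obtain ⟨c, hc⟩ : ∃ c, Fintype.card ι = c + 1 := ⟨Fintype.card ι - 1, by omega⟩
  rw [hc] at h1 hk
  have h3 : (n + 1) * c ≤ (n + 1) * (k - 1) := Nat.mul_le_mul_left _ (by omega)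
  nlinarith

end Pool.Agent.KGen
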